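import Pool.Agent.Helper21.D2.Stmts
import Pool.Agent.Helper82.AHS.LieB

/-! D2, module KPL: the matrices which kill `Q⁻¹ ⊗ Q`, and those which kill `Q`. -/

set_option autoImplicit false

namespace Pool.Agent.Helper21.TH

open Matrix Pool.Agent.Helper82.AHS

theorem st_KPL : ST_KPL := by
  intro r K _ _ Q x hQ
  have hu : IsUnit Q.det := isUnit_iff_ne_zero.mpr hQ
  have h1 : Q.map (algebraMap ℚ K) * Q⁻¹.map (algebraMap ℚ K) = 1 := by
    rw [← Matrix.map_mul, Matrix.mul_nonsing_inv Q hu]
    exact Matrix.map_one _ (map_zero _) (map_one _)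
  have h2 : Q⁻¹.map (algebraMap ℚ K) * Q.map (algebraMap ℚ K) = 1 := by
    rw [← Matrix.map_mul, Matrix.nonsing_inv_mul Q hu]
    exact Matrix.map_one _ (map_zero _) (map_one _)
  have hp : up K (polT Q) = t22 (Q⁻¹.map (algebraMap ℚ K)) (Q.map (algebraMap ℚ K)) := by
    rw [← up_t22]; rfl
  have hf : up K (formT Q) = t02 (Q.map (algebraMap ℚ K)) := rfl
  constructor
  · rw [hp, dr_t22, t22_dr]
    set A := Q.map (algebraMap ℚ K) with hA
    set B := Q⁻¹.map (algebraMap ℚ K) with hB
    constructor
    · intro h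
      have he : ∀ i i' j j' : Fin r,
          (x * B + B * xᵀ) i i' * A j j' = B i i' * (xᵀ * A + A * x) j j' := by
        intro i i' j j'
        exact congrFun (congrFun h ![i, i']) ![j, j']
      by_cases hB0 : B = 0
      · have h10 : (1 : Matrix (Fin r) (Fin r) K) = 0 := by rw [← h1, hB0, Matrix.mul_zero]
        refine ⟨0, ?_⟩
        rw [← Matrix.mul_one (xᵀ * A + A * x), h10, Matrix.mul_zero, zero_smul]
      · obtain ⟨i, i', hi⟩ : ∃ i i', B i i' ≠ 0 := by
          by_contra hcon
          push Not at hcon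
          exact hB0 (by ext i i'; exact hcon i i')
        refine ⟨(x * B + B * xᵀ) i i' / B i i', ?_⟩
        ext j j'
        rw [Matrix.smul_apply, smul_eq_mul, div_mul_eq_mul_div, he i i' j j',
          mul_div_cancel_left₀ _ hi]
    · rintro ⟨c, hc⟩
      have h3 : x * B + B * xᵀ = c • B := by
        have h4 : B * (xᵀ * A + A * x) * B = B * (c • A) * B := by rw [hc]
        have h5 : B * (xᵀ * A + A * x) * B = x * B + B * xᵀ := by
          calc B * (xᵀ * A + A * x) * B = B * xᵀ * (A * B) + (B * A) * x * B := by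
                noncomm_ring
            _ = x * B + B * xᵀ := by rw [h1, h2, Matrix.mul_one, Matrix.one_mul, add_comm]
        have h6 : B * (c • A) * B = c • B := by
          rw [Matrix.mul_smul, Matrix.smul_mul, h2, Matrix.one_mul]
        rw [← h5, h4, h6]
      rw [h3, hc]
      ext i j
      change (c • B) (i 0) (i 1) * A (j 0) (j 1) = B (i 0) (i 1) * (c • A) (j 0) (j 1)
      rw [Matrix.smul_apply, Matrix.smul_apply, smul_eq_mul, smul_eq_mul]
      ring
  · rw [hf]
    exact kill_t02

end Pool.Agent.Helper21.TH
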